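import Mathlib

/-!
# LSP3, part S2 (helper14): constants of the Cauchy kernel
-/

open MeasureTheory Filter Topology Set

namespace Pool.Agent.LSP

/-- `∫ log (1+t²)/(1+t²) dt = 2π log 2` -/
theorem s2_log_int : Integrable (fun t : ℝ => Real.log (1 + t ^ 2) / (1 + t ^ 2)) ∧
    ∫ t : ℝ, Real.log (1 + t ^ 2) / (1 + t ^ 2) = 2 * Real.pi * Real.log 2 := by
  have himg : Real.arctan '' univ = Ioo (-(Real.pi / 2)) (Real.pi / 2) := by
    rw [image_univ, Real.range_arctan]
  have hder : ∀ x ∈ (univ : Set ℝ), HasDerivWithinAt Real.arctan (1 / (1 + x ^ 2)) univ x :=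
    fun x _ => (Real.hasDerivAt_arctan x).hasDerivWithinAt
  have hinj : InjOn Real.arctan univ := Real.arctan_injective.injOn
  have hlog : ∀ x : ℝ, |1 / (1 + x ^ 2)| • (-2 * Real.log (Real.cos (Real.arctan x))) =
      Real.log (1 + x ^ 2) / (1 + x ^ 2) := by
    intro x
    have hx : 0 < 1 + x ^ 2 := by positivity
    rw [Real.cos_arctan, one_div (√(1 + x ^ 2)), Real.log_inv, Real.log_sqrt hx.le, smul_eq_mul,
      abs_of_pos (by positivity)]
    ring
  have hii : IntervalIntegrable (Real.log ∘ Real.cos) volume (-(Real.pi / 2)) (Real.pi / 2) :=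
    intervalIntegrable_log_cos
  have hpi : -(Real.pi / 2) ≤ Real.pi / 2 := by linarith [Real.pi_pos]
  have hio : IntegrableOn (fun θ : ℝ => -2 * Real.log (Real.cos θ))
      (Ioo (-(Real.pi / 2)) (Real.pi / 2)) := by
    have h1 := (intervalIntegrable_iff_integrableOn_Ioo_of_le hpi).1 hii
    exact h1.const_mul (-2)
  constructor
  · have h1 := (integrableOn_image_iff_integrableOn_abs_deriv_smul MeasurableSet.univ hder hinj
      (fun θ : ℝ => -2 * Real.log (Real.cos θ))).1 (by rw [himg]; exact hio)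
    rw [integrableOn_univ] at h1
    refine h1.congr (Eventually.of_forall fun x => ?_)
    exact hlog x
  · have h1 := integral_image_eq_integral_abs_deriv_smul MeasurableSet.univ hder hinj
      (fun θ : ℝ => -2 * Real.log (Real.cos θ))
    rw [himg, setIntegral_univ] at h1
    have h2 : ∫ t : ℝ, Real.log (1 + t ^ 2) / (1 + t ^ 2) =
        ∫ θ in Ioo (-(Real.pi / 2)) (Real.pi / 2), -2 * Real.log (Real.cos θ) := by
      rw [h1]
      exact integral_congr_ae (Eventually.of_forall fun x => (hlog x).symm)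
    rw [h2, ← integral_Ioc_eq_integral_Ioo, ← intervalIntegral.integral_of_le hpi,
      intervalIntegral.integral_const_mul]
    have h3 : ∫ θ in (-(Real.pi / 2))..(Real.pi / 2), Real.log (Real.cos θ) =
        ∫ x in (0 : ℝ)..Real.pi, Real.log (Real.sin x) := by
      have h4 := intervalIntegral.integral_comp_add_right (a := -(Real.pi / 2))
        (b := Real.pi / 2) (fun x => Real.log (Real.sin x)) (Real.pi / 2)
      simp only [Real.sin_add_pi_div_two] at h4
      rw [h4]
      congr 1 <;> ring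
    rw [h3, integral_log_sin_zero_pi]
    ring

theorem s2_gamma : IntegrableOn (fun t : ℝ => Real.log t * Real.exp (-t)) (Ioi 0) ∧
    ∫ t in Ioi (0 : ℝ), Real.log t * Real.exp (-t) = -Real.eulerMascheroniConstant := by
  have key := mellin_hasDerivAt_of_isBigO_rpow (E := ℂ) (f := fun x : ℝ => ((Real.exp (-x) : ℝ) : ℂ))
    (a := 2) (b := 0) (s := 1) (by
      refine (Continuous.continuousOn ?_).locallyIntegrableOn measurableSet_Ioi
      exact Complex.continuous_ofReal.comp (Real.continuous_exp.comp continuous_neg)) (by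
      rw [← Asymptotics.isBigO_norm_left]
      simp_rw [Complex.norm_real, Asymptotics.isBigO_norm_left]
      simpa only [neg_one_mul] using (isLittleO_exp_neg_mul_rpow_atTop zero_lt_one _).isBigO)
    (by simp) (by
      simp_rw [neg_zero, Real.rpow_zero]
      refine Asymptotics.isBigO_const_of_tendsto (?_ : Tendsto _ _ (𝓝 (1 : ℂ))) one_ne_zero
      rw [(by simp : (1 : ℂ) = Real.exp (-0))]
      exact (Complex.continuous_ofReal.comp
        (Real.continuous_exp.comp continuous_neg)).continuousWithinAt) (by simp)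
  obtain ⟨h1, h2⟩ := key
  have e : ∀ t : ℝ, 0 < t → (t : ℂ) ^ ((1 : ℂ) - 1) • (Real.log t • ((Real.exp (-t) : ℝ) : ℂ)) =
      ((Real.log t * Real.exp (-t) : ℝ) : ℂ) := by
    intro t ht
    rw [sub_self, Complex.cpow_zero, one_smul, Complex.real_smul]
    push_cast
    rfl
  have h3 : IntegrableOn (fun t : ℝ => ((Real.log t * Real.exp (-t) : ℝ) : ℂ)) (Ioi 0) := by
    refine IntegrableOn.congr_fun h1 (fun t ht => ?_) measurableSet_Ioi
    exact e t ht
  have h4 : IntegrableOn (fun t : ℝ => Real.log t * Real.exp (-t)) (Ioi 0) := by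
    have h3' : Integrable (fun t : ℝ => ((Real.log t * Real.exp (-t) : ℝ) : ℂ))
      (volume.restrict (Ioi 0)) := h3
    exact h3'.re.congr (Eventually.of_forall fun t => Complex.ofReal_re _)
  refine ⟨h4, ?_⟩
  have h5 : Complex.Gamma =ᶠ[𝓝 1] mellin (fun x : ℝ => ((Real.exp (-x) : ℝ) : ℂ)) := by
    have ho : IsOpen {z : ℂ | 0 < z.re} := isOpen_lt continuous_const Complex.continuous_re
    filter_upwards [ho.mem_nhds (show (0 : ℝ) < (1 : ℂ).re by simp)] with z hz
    rw [Complex.Gamma_eq_integral hz, Complex.GammaIntegral_eq_mellin]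
  have h6 := (Complex.hasDerivAt_Gamma_one.congr_of_eventuallyEq h5.symm).unique h2
  have h7 : mellin (fun t : ℝ => Real.log t • ((Real.exp (-t) : ℝ) : ℂ)) 1 =
      ((∫ t in Ioi (0 : ℝ), Real.log t * Real.exp (-t) : ℝ) : ℂ) := by
    rw [mellin, ← integral_complex_ofReal]
    exact setIntegral_congr_fun measurableSet_Ioi fun t ht => e t ht
  rw [h7] at h6
  have h8 : ((-Real.eulerMascheroniConstant : ℝ) : ℂ) =
      ((∫ t in Ioi (0 : ℝ), Real.log t * Real.exp (-t) : ℝ) : ℂ) := by
    rw [← h6]
    push_cast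
    rfl
  exact (Complex.ofReal_injective h8).symm

/-- `∫ 4 e^(-4πu) log u du = -(γ + log 4π)/π` -/
theorem s2_exp_log : IntegrableOn (fun u : ℝ => 4 * Real.exp (-(4 * Real.pi * u)) * Real.log u)
      (Ioi 0) ∧
    ∫ u in Ioi (0 : ℝ), 4 * Real.exp (-(4 * Real.pi * u)) * Real.log u =
      -(Real.eulerMascheroniConstant + Real.log (4 * Real.pi)) / Real.pi := by
  have hpi := Real.pi_pos
  have hc : (0 : ℝ) < 4 * Real.pi := by positivity
  obtain ⟨h1, h2⟩ := s2_gamma
  have hexp : IntegrableOn (fun t : ℝ => Real.exp (-t)) (Ioi 0) := by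
    simpa using integrableOn_exp_neg_Ioi 0
  set F : ℝ → ℝ := fun v => 4 * (Real.log v * Real.exp (-v)) -
    4 * Real.log (4 * Real.pi) * Real.exp (-v) with hF
  have hFi : IntegrableOn F (Ioi 0) := (h1.const_mul 4).sub (hexp.const_mul _)
  have hFv : ∫ v in Ioi (0 : ℝ), F v = -4 * (Real.eulerMascheroniConstant +
      Real.log (4 * Real.pi)) := by
    rw [hF]
    simp only
    rw [integral_sub (h1.const_mul 4) (hexp.const_mul _), integral_const_mul, integral_const_mul,
      h2, integral_exp_neg_Ioi_zero]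
    ring
  have hcomp : ∀ u ∈ Ioi (0 : ℝ), F (4 * Real.pi * u) =
      4 * Real.exp (-(4 * Real.pi * u)) * Real.log u := by
    intro u hu
    have hu0 : (0 : ℝ) < u := hu
    rw [hF]
    simp only
    rw [Real.log_mul hc.ne' hu0.ne']
    ring
  constructor
  · have h3 := (integrableOn_Ioi_comp_mul_left_iff F 0 hc).2 (by rw [mul_zero]; exact hFi)
    exact h3.congr_fun hcomp measurableSet_Ioi
  · rw [← setIntegral_congr_fun measurableSet_Ioi hcomp,
      integral_comp_mul_left_Ioi F 0 hc, mul_zero, hFv, smul_eq_mul]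
    field_simp

end Pool.Agent.LSP
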