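import Pool.Agent.Lib_helper14.LSP3.S2a
import Pool.Agent.Lib_helper14.LSP3.S2b

/-!
# LSP3, part S2 (helper14): the moments of the Cauchy kernel
-/

set_option autoImplicit false

namespace Pool.Agent.LSP

open Pool.Agent.LEV Pool.Agent.LVB Pool.Agent.KSL
open MeasureTheory Filter Topology

theorem s2_arctan {x : ℝ} (hx : 0 < x) : Real.arctan x ≤ x := by
  have h1 : 0 < Real.arctan x := Real.arctan_pos.2 hx
  have h2 := Real.lt_tan h1 (Real.arctan_lt_pi_div_two x)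
  rw [Real.tan_arctan] at h2
  exact h2.le

theorem s2_rinf (t : ℝ) : (1 + t ^ 2) * Pool.Agent.LK.rinf t ^ 2 =
    (1 / Real.pi ^ 2) * (1 + t ^ 2)⁻¹ := by
  have h : (0 : ℝ) < 1 + t ^ 2 := by positivity
  have hpi := Real.pi_pos
  unfold Pool.Agent.LK.rinf
  field_simp

theorem s2_rinf_nonneg (t : ℝ) : 0 ≤ Pool.Agent.LK.rinf t := by
  have hpi := Real.pi_pos
  unfold Pool.Agent.LK.rinf
  positivity

/-- pointwise comparison, `M` is the relative error -/
theorem s2_dens {T : ℝ} {ρ : ℝ → ℝ} (h4 : 4 ≤ T) (hC : Pool.Agent.LK.KerC T ρ) (t : ℝ) :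
    (|t| ≤ T / 2 → |(1 + t ^ 2) * ρ t ^ 2 - (1 / Real.pi ^ 2) * (1 + t ^ 2)⁻¹| ≤
      12 / T * ((1 / Real.pi ^ 2) * (1 + t ^ 2)⁻¹)) ∧
    |(1 + t ^ 2) * ρ t ^ 2 - (1 / Real.pi ^ 2) * (1 + t ^ 2)⁻¹| ≤
      4 * ((1 / Real.pi ^ 2) * (1 + t ^ 2)⁻¹) := by
  have hr := s2_rinf_nonneg t
  have hρ0 := hC.nonneg t
  have hle := hC.le t
  have hT : 0 < T := by linarith
  rw [← s2_rinf]
  set r := Pool.Agent.LK.rinf t with hrdef
  have hp : (0 : ℝ) < 1 + t ^ 2 := by positivity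
  have e : (1 + t ^ 2) * ρ t ^ 2 - (1 + t ^ 2) * r ^ 2 = (1 + t ^ 2) * ((ρ t - r) * (ρ t + r)) := by
    ring
  rw [e, abs_mul, abs_of_pos hp, abs_mul, abs_of_nonneg (by linarith : 0 ≤ ρ t + r)]
  have hsum : ρ t + r ≤ 3 * r := by linarith
  constructor
  · intro ht
    have h1 := hC.near t ht
    calc (1 + t ^ 2) * (|ρ t - r| * (ρ t + r)) ≤ (1 + t ^ 2) * ((4 / T * r) * (3 * r)) := by
          gcongr
      _ = 12 / T * ((1 + t ^ 2) * r ^ 2) := by ring
  · have h2 : |ρ t - r| * (ρ t + r) ≤ 4 * r ^ 2 := by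
      rcases le_total r (ρ t) with h | h
      · rw [abs_of_nonneg (by linarith)]
        nlinarith
      · rw [abs_of_nonpos (by linarith)]
        nlinarith
    calc (1 + t ^ 2) * (|ρ t - r| * (ρ t + r)) ≤ (1 + t ^ 2) * (4 * r ^ 2) := by gcongr
      _ = 4 * ((1 + t ^ 2) * r ^ 2) := by ring

theorem s2_cs {T : ℝ} {ρ : ℝ → ℝ} (hρ : Ker T ρ) : HasCompactSupport ρ := by
  refine HasCompactSupport.of_support_subset_isCompact (isCompact_Icc (a := -T) (b := T)) ?_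
  intro t ht
  by_contra hne
  apply ht
  have : T < |t| := by
    by_contra hle
    push Not at hle
    exact hne (abs_le.1 hle)
  exact hρ.supp t this

theorem s2_int {T : ℝ} {ρ : ℝ → ℝ} (hρ : Ker T ρ) :
    Integrable (fun t : ℝ => (1 + t ^ 2) * ρ t ^ 2) ∧
    Integrable (fun t : ℝ => (1 + t ^ 2) * ρ t ^ 2 * Real.log (1 + t ^ 2)) := by
  have hc := hρ.cont
  have hcs := s2_cs hρ
  constructor
  · refine Continuous.integrable_of_hasCompactSupport (by fun_prop) ?_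
    refine hcs.mono ?_
    intro t ht h0
    exact ht (by simp [h0])
  · refine Continuous.integrable_of_hasCompactSupport ?_ ?_
    · refine Continuous.mul (by fun_prop) ?_
      refine Continuous.log (by fun_prop) fun t => ?_
      positivity
    · refine hcs.mono ?_
      intro t ht h0
      exact ht (by simp [h0])

/-- `|C_ρ - 1/π| ≤ 28/T` -/
theorem s2_cr {T : ℝ} {ρ : ℝ → ℝ} (h4 : 4 ≤ T) (hC : Pool.Agent.LK.KerC T ρ) :
    |Cr ρ - 1 / Real.pi| ≤ 28 / T := by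
  have hT : 0 < T := by linarith
  have hpi := Real.pi_pos
  have hpi3 := Real.pi_gt_three
  have hi1 := (s2_int hC.toKerL.toKer).1
  have hi2 : Integrable (fun t : ℝ => (1 + t ^ 2)⁻¹) := integrable_inv_one_add_sq
  have hlim : (1 / Real.pi : ℝ) = ∫ t : ℝ, (1 / Real.pi ^ 2) * (1 + t ^ 2)⁻¹ := by
    rw [integral_const_mul, integral_univ_inv_one_add_sq]
    field_simp
  have hdiff : Cr ρ - 1 / Real.pi = ∫ t : ℝ, ((1 + t ^ 2) * ρ t ^ 2 -
      (1 / Real.pi ^ 2) * (1 + t ^ 2)⁻¹) := by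
    rw [integral_sub hi1 (hi2.const_mul _), ← hlim]
    rfl
  set J : ℝ → ℝ := fun t => (1 + t ^ 2)⁻¹ with hJ
  have hJ0 : ∀ t, 0 ≤ J t := fun t => by positivity
  set A : ℝ → ℝ := (Set.Ioi (T / 2)).indicator J with hA
  set B : ℝ → ℝ := (Set.Iic (-(T / 2))).indicator J with hB
  have hA0 : ∀ t, 0 ≤ A t := fun t => Set.indicator_nonneg (fun x _ => hJ0 x) t
  have hB0 : ∀ t, 0 ≤ B t := fun t => Set.indicator_nonneg (fun x _ => hJ0 x) t
  have hAi : Integrable A := hi2.indicator measurableSet_Ioi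
  have hBi : Integrable B := hi2.indicator measurableSet_Iic
  have harc : Real.pi / 2 - Real.arctan (T / 2) ≤ 2 / T := by
    rw [← Real.arctan_inv_of_pos (by positivity)]
    refine (s2_arctan (by positivity)).trans (le_of_eq ?_)
    field_simp
  have hAv : ∫ t, A t ≤ 2 / T := by
    rw [hA, integral_indicator measurableSet_Ioi, hJ, integral_Ioi_inv_one_add_sq]
    exact harc
  have hBv : ∫ t, B t ≤ 2 / T := by
    rw [hB, integral_indicator measurableSet_Iic, hJ, integral_Iic_inv_one_add_sq,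
      Real.arctan_neg]
    linarith
  have hpt : ∀ t : ℝ, ‖(1 + t ^ 2) * ρ t ^ 2 - (1 / Real.pi ^ 2) * (1 + t ^ 2)⁻¹‖ ≤
      12 / T * (1 / Real.pi ^ 2) * J t + 4 * (1 / Real.pi ^ 2) * (A t + B t) := by
    intro t
    rw [Real.norm_eq_abs]
    obtain ⟨h1, h2⟩ := s2_dens h4 hC t
    have hp0 : 0 ≤ 4 * (1 / Real.pi ^ 2) * (A t + B t) := by
      have := hA0 t; have := hB0 t; positivity
    have hq0 : 0 ≤ 12 / T * (1 / Real.pi ^ 2) * J t := by
      have := hJ0 t; positivity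
    by_cases ht : |t| ≤ T / 2
    · refine (h1 ht).trans ?_
      rw [hJ] at hq0 ⊢
      simp only at hq0 ⊢
      linarith
    · push Not at ht
      refine h2.trans ?_
      have hAB : J t ≤ A t + B t := by
        rcases lt_abs.1 ht with h | h
        · have : A t = J t := Set.indicator_of_mem (show t ∈ Set.Ioi (T / 2) from h) _
          linarith [hB0 t]
        · have : B t = J t := Set.indicator_of_mem
            (show t ∈ Set.Iic (-(T / 2)) from by simp only [Set.mem_Iic]; linarith) _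
          linarith [hA0 t]
      have hk : 0 ≤ 4 * (1 / Real.pi ^ 2) := by positivity
      have := mul_le_mul_of_nonneg_left hAB hk
      calc 4 * ((1 / Real.pi ^ 2) * (1 + t ^ 2)⁻¹) = 4 * (1 / Real.pi ^ 2) * J t := by
            rw [hJ]; ring
        _ ≤ 4 * (1 / Real.pi ^ 2) * (A t + B t) := this
        _ ≤ _ := by linarith
  rw [hdiff, ← Real.norm_eq_abs]
  refine (norm_integral_le_of_norm_le ((hi2.const_mul _).add ((hAi.add hBi).const_mul _))
    (Eventually.of_forall hpt)).trans ?_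
  have hv : ∫ t, (12 / T * (1 / Real.pi ^ 2) * J t + 4 * (1 / Real.pi ^ 2) * (A t + B t)) =
      12 / T * (1 / Real.pi ^ 2) * Real.pi + 4 * (1 / Real.pi ^ 2) * ((∫ t, A t) + ∫ t, B t) := by
    have e1 := integral_add (hi2.const_mul (12 / T * (1 / Real.pi ^ 2)))
      ((hAi.add hBi).const_mul (4 * (1 / Real.pi ^ 2)))
    have e2 := integral_add hAi hBi
    have e3 : ∫ t : ℝ, (12 / T * (1 / Real.pi ^ 2) * (1 + t ^ 2)⁻¹) =
      12 / T * (1 / Real.pi ^ 2) * Real.pi := by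
      rw [integral_const_mul, integral_univ_inv_one_add_sq]
    have e4 : ∫ t : ℝ, (4 * (1 / Real.pi ^ 2) * (A + B) t) =
      4 * (1 / Real.pi ^ 2) * ((∫ t, A t) + ∫ t, B t) := by
      rw [integral_const_mul, ← e2]
      rfl
    rw [← e3, ← e4]
    exact e1
  have hv' : (∫ t, (12 / T * (1 / Real.pi ^ 2) * J t + 4 * (1 / Real.pi ^ 2) * (A t + B t))) ≤
      28 / T := by
    rw [hv]
    have h1 : 12 / T * (1 / Real.pi ^ 2) * Real.pi = 12 / Real.pi / T := by field_simp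
    have h2 : 12 / Real.pi ≤ 4 := by
      rw [div_le_iff₀ hpi]; linarith
    have h3 : 4 * (1 / Real.pi ^ 2) ≤ 1 := by
      rw [mul_one_div, div_le_one (by positivity)]
      nlinarith
    have h4' : (∫ t, A t) + ∫ t, B t ≤ 4 / T := by
      have : (4 : ℝ) / T = 2 / T + 2 / T := by ring
      linarith
    have h5 : 0 ≤ (∫ t, A t) + ∫ t, B t :=
      add_nonneg (integral_nonneg hA0) (integral_nonneg hB0)
    have h6 : 4 * (1 / Real.pi ^ 2) * ((∫ t, A t) + ∫ t, B t) ≤ 1 * (4 / T) :=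
      mul_le_mul h3 h4' h5 (by norm_num)
    rw [h1]
    have h7 : 12 / Real.pi / T ≤ 4 / T := by gcongr
    have h8 : (4 : ℝ) / T + 1 * (4 / T) = 8 / T := by ring
    have h9 : (8 : ℝ) / T ≤ 28 / T := by gcongr; norm_num
    linarith
  exact hv'

/-- the logarithmic moment -/
theorem s2_cl : ∃ K : ℝ, 0 ≤ K ∧ ∀ T : ℝ, 4 ≤ T → ∀ ρ : ℝ → ℝ, Pool.Agent.LK.KerC T ρ →
    |Cl ρ - 2 * Real.log 2 / Real.pi| ≤ K * T ^ (-(1 / 2) : ℝ) := by
  have hpi := Real.pi_pos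
  have hmaj : Integrable (fun t : ℝ => (1 + ‖t‖ ^ 2) ^ (-(5 / 4 : ℝ) / 2)) := by
    apply integrable_rpow_neg_one_add_norm_sq
    norm_num
  set I0 : ℝ := ∫ t : ℝ, (1 + ‖t‖ ^ 2) ^ (-(5 / 4 : ℝ) / 2) with hI0
  have hI0n : 0 ≤ I0 := integral_nonneg fun t => by positivity
  refine ⟨96 * (1 / Real.pi ^ 2) * I0, by positivity, ?_⟩
  intro T h4 ρ hC
  have hT : 0 < T := by linarith
  have hi1 := (s2_int hC.toKerL.toKer).2
  obtain ⟨hi2, hv2⟩ := s2_log_int
  have hlim : (2 * Real.log 2 / Real.pi : ℝ) = ∫ t : ℝ, (1 / Real.pi ^ 2) *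
      (Real.log (1 + t ^ 2) / (1 + t ^ 2)) := by
    rw [integral_const_mul, hv2]
    field_simp
  have hdiff : Cl ρ - 2 * Real.log 2 / Real.pi = ∫ t : ℝ, ((1 + t ^ 2) * ρ t ^ 2 *
      Real.log (1 + t ^ 2) - (1 / Real.pi ^ 2) * (Real.log (1 + t ^ 2) / (1 + t ^ 2))) := by
    rw [integral_sub hi1 (hi2.const_mul _), ← hlim]
    rfl
  have hpt : ∀ t : ℝ, ‖(1 + t ^ 2) * ρ t ^ 2 * Real.log (1 + t ^ 2) -
      (1 / Real.pi ^ 2) * (Real.log (1 + t ^ 2) / (1 + t ^ 2))‖ ≤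
      96 * (1 / Real.pi ^ 2) * T ^ (-(1 / 2) : ℝ) * (1 + ‖t‖ ^ 2) ^ (-(5 / 4 : ℝ) / 2) := by
    intro t
    have hx : (0 : ℝ) < 1 + t ^ 2 := by positivity
    have hx1 : (1 : ℝ) ≤ 1 + t ^ 2 := by nlinarith [sq_nonneg t]
    have hlog0 : 0 ≤ Real.log (1 + t ^ 2) := Real.log_nonneg hx1
    have hlog : Real.log (1 + t ^ 2) ≤ 8 * (1 + t ^ 2) ^ (1 / 8 : ℝ) := by
      have := Real.log_le_rpow_div hx.le (show (0 : ℝ) < 1 / 8 by norm_num)
      linarith
    have e : (1 + t ^ 2) * ρ t ^ 2 * Real.log (1 + t ^ 2) -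
        (1 / Real.pi ^ 2) * (Real.log (1 + t ^ 2) / (1 + t ^ 2)) =
        ((1 + t ^ 2) * ρ t ^ 2 - (1 / Real.pi ^ 2) * (1 + t ^ 2)⁻¹) * Real.log (1 + t ^ 2) := by
      ring
    rw [e, norm_mul, Real.norm_eq_abs, Real.norm_of_nonneg hlog0]
    obtain ⟨h1, h2⟩ := s2_dens h4 hC t
    have hTs : T ^ (-(1 / 2) : ℝ) * T ^ (1 / 2 : ℝ) = 1 := by
      rw [← Real.rpow_add hT]; norm_num
    have hT12 : 0 < T ^ (-(1 / 2) : ℝ) := Real.rpow_pos_of_pos hT _
    have hq : 1 ≤ (1 + t ^ 2) ^ (1 / 4 : ℝ) := Real.one_le_rpow hx1 (by norm_num)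
    have hM : |(1 + t ^ 2) * ρ t ^ 2 - (1 / Real.pi ^ 2) * (1 + t ^ 2)⁻¹| ≤
        12 * T ^ (-(1 / 2) : ℝ) * (1 + t ^ 2) ^ (1 / 4 : ℝ) *
          ((1 / Real.pi ^ 2) * (1 + t ^ 2)⁻¹) := by
      by_cases ht : |t| ≤ T / 2
      · refine (h1 ht).trans ?_
        have hle : 12 / T ≤ 12 * T ^ (-(1 / 2) : ℝ) * (1 + t ^ 2) ^ (1 / 4 : ℝ) := by
          have h5 : (1 : ℝ) / T ≤ T ^ (-(1 / 2) : ℝ) := by
            rw [one_div, ← Real.rpow_neg_one]
            exact Real.rpow_le_rpow_of_exponent_le (by linarith) (by norm_num)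
          calc 12 / T = 12 * (1 / T) * 1 := by ring
            _ ≤ 12 * T ^ (-(1 / 2) : ℝ) * (1 + t ^ 2) ^ (1 / 4 : ℝ) := by gcongr
        exact mul_le_mul_of_nonneg_right hle (by positivity)
      · push Not at ht
        refine h2.trans ?_
        have hle : 4 ≤ 12 * T ^ (-(1 / 2) : ℝ) * (1 + t ^ 2) ^ (1 / 4 : ℝ) := by
          have h5 : (T / 2) ^ 2 ≤ 1 + t ^ 2 := by
            have : (T / 2) ^ 2 ≤ |t| ^ 2 := pow_le_pow_left₀ (by positivity) ht.le 2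
            rw [sq_abs] at this
            linarith
          have h6 : (T / 4) ^ (1 / 2 : ℝ) ≤ (1 + t ^ 2) ^ (1 / 4 : ℝ) := by
            have h7 : ((T / 2) ^ 2) ^ (1 / 4 : ℝ) ≤ (1 + t ^ 2) ^ (1 / 4 : ℝ) :=
              Real.rpow_le_rpow (by positivity) h5 (by norm_num)
            have h8 : ((T / 2) ^ 2) ^ (1 / 4 : ℝ) = (T / 2) ^ (1 / 2 : ℝ) := by
              rw [← Real.rpow_natCast, ← Real.rpow_mul (by positivity)]
              norm_num
            rw [h8] at h7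
            refine le_trans ?_ h7
            exact Real.rpow_le_rpow (by positivity) (by linarith) (by norm_num)
          have h9 : (T / 4) ^ (1 / 2 : ℝ) = T ^ (1 / 2 : ℝ) / 2 := by
            rw [Real.div_rpow hT.le (by norm_num)]
            have : (4 : ℝ) ^ (1 / 2 : ℝ) = 2 := by
              rw [show (4 : ℝ) = 2 ^ (2 : ℝ) by norm_num, ← Real.rpow_mul (by norm_num)]
              norm_num
            rw [this]
          rw [h9] at h6
          have h10 : 12 * T ^ (-(1 / 2) : ℝ) * (T ^ (1 / 2 : ℝ) / 2) ≤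
              12 * T ^ (-(1 / 2) : ℝ) * (1 + t ^ 2) ^ (1 / 4 : ℝ) :=
            mul_le_mul_of_nonneg_left h6 (by positivity)
          have h11 : 12 * T ^ (-(1 / 2) : ℝ) * (T ^ (1 / 2 : ℝ) / 2) = 6 := by
            have : 12 * T ^ (-(1 / 2) : ℝ) * (T ^ (1 / 2 : ℝ) / 2) =
              6 * (T ^ (-(1 / 2) : ℝ) * T ^ (1 / 2 : ℝ)) := by ring
            rw [this, hTs]; norm_num
          linarith
        exact mul_le_mul_of_nonneg_right hle (by positivity)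
    calc |(1 + t ^ 2) * ρ t ^ 2 - (1 / Real.pi ^ 2) * (1 + t ^ 2)⁻¹| * Real.log (1 + t ^ 2)
        ≤ (12 * T ^ (-(1 / 2) : ℝ) * (1 + t ^ 2) ^ (1 / 4 : ℝ) *
          ((1 / Real.pi ^ 2) * (1 + t ^ 2)⁻¹)) * (8 * (1 + t ^ 2) ^ (1 / 8 : ℝ)) :=
          mul_le_mul hM hlog hlog0 (by positivity)
      _ = 96 * (1 / Real.pi ^ 2) * T ^ (-(1 / 2) : ℝ) *
          ((1 + t ^ 2) ^ (1 / 4 : ℝ) * (1 + t ^ 2)⁻¹ * (1 + t ^ 2) ^ (1 / 8 : ℝ)) := by ring
      _ = _ := by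
          rw [← Real.rpow_neg_one, ← Real.rpow_add hx, ← Real.rpow_add hx, Real.norm_eq_abs,
            sq_abs]
          norm_num
  rw [hdiff, ← Real.norm_eq_abs]
  refine (norm_integral_le_of_norm_le (hmaj.const_mul _) (Eventually.of_forall hpt)).trans ?_
  rw [integral_const_mul]
  exact le_of_eq (by ring)

end Pool.Agent.LSP
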