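import Pool.Agent.Lib_helper14.LSP3.S2c
import Pool.Agent.Lib_helper41.LSP3.DefsS
import Pool.Agent.Lib_helper41.LSP3.SB

/-!
# LSP3, part S2 (helper14): the constants of a kernel close to the Cauchy kernel
-/

set_option autoImplicit false

namespace Pool.Agent.LSP

open Pool.Agent.LEV Pool.Agent.LVB Pool.Agent.KSL
open MeasureTheory Filter Topology

/-- the limit of the transform -/
noncomputable def s2e (u : ℝ) : ℝ := 2 * Real.exp (-(2 * Real.pi * u))

/-- the squared distance to the limit -/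
noncomputable def s2g (ρ : ℝ → ℝ) (u : ℝ) : ℝ := ‖kh ρ (-u) - (s2e u : ℂ)‖ ^ 2 + ‖kh ρ u‖ ^ 2

theorem s2e_pos (u : ℝ) : 0 < s2e u := by unfold s2e; positivity

theorem s2e_sq (u : ℝ) : s2e u ^ 2 = 4 * Real.exp (-(4 * Real.pi * u)) := by
  unfold s2e
  rw [mul_pow, ← Real.exp_nat_mul]
  congr 1
  · norm_num
  · congr 1; push_cast; ring

theorem s2g_nonneg (ρ : ℝ → ℝ) (u : ℝ) : 0 ≤ s2g ρ u := by unfold s2g; positivity

theorem s2g_eq (ρ : ℝ → ℝ) (u : ℝ) :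
    s2g ρ u = kk ρ u - 2 * (s2e u * (kh ρ (-u)).re) + s2e u ^ 2 := by
  unfold s2g kk
  have h : ‖kh ρ (-u) - (s2e u : ℂ)‖ ^ 2 = ‖kh ρ (-u)‖ ^ 2 - 2 * (s2e u * (kh ρ (-u)).re) +
      s2e u ^ 2 := by
    rw [← Complex.normSq_eq_norm_sq, ← Complex.normSq_eq_norm_sq, Complex.normSq_apply,
      Complex.normSq_apply]
    simp only [Complex.sub_re, Complex.sub_im, Complex.ofReal_re, Complex.ofReal_im]
    ring
  rw [h]
  ring

theorem s2e_int : IntegrableOn (fun u => s2e u ^ 2) (Set.Ioi 0) ∧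
    ∫ u in Set.Ioi (0 : ℝ), s2e u ^ 2 = 1 / Real.pi := by
  have hpi := Real.pi_pos
  have h1 : ∀ u : ℝ, s2e u ^ 2 = 4 * Real.exp (-(4 * Real.pi) * u) := by
    intro u
    rw [s2e_sq]
    congr 2
    ring
  simp only [h1]
  have hneg : -(4 * Real.pi) < 0 := by linarith
  constructor
  · exact (integrableOn_exp_mul_Ioi hneg 0).const_mul 4
  · rw [integral_const_mul, integral_exp_mul_Ioi hneg 0]
    simp only [mul_zero, Real.exp_zero]
    field_simp

/-- the total squared distance is `C_ρ - 1/π` -/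
theorem s2g_total {T : ℝ} {ρ : ℝ → ℝ} (hρ : KerL T ρ) :
    IntegrableOn (s2g ρ) (Set.Ioi 0) ∧
    ∫ u in Set.Ioi (0 : ℝ), s2g ρ u = Cr ρ - 1 / Real.pi := by
  have hpi := Real.pi_pos
  obtain ⟨hk1, hk2⟩ := kk_total hρ
  obtain ⟨he1, he2⟩ := s2e_int
  obtain ⟨hl1, hl2⟩ := kh_laplace_pr hρ (m := 1) le_rfl
  have heq : ∀ u : ℝ, (((Real.exp (-2 * Real.pi * ((1 : ℕ) : ℝ) * u) : ℝ) : ℂ) *
      kh ρ (-(((1 : ℕ) : ℝ) * u))).re * 2 = s2e u * (kh ρ (-u)).re := by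
    intro u
    rw [Complex.re_ofReal_mul]
    unfold s2e
    have h1 : -2 * Real.pi * ((1 : ℕ) : ℝ) * u = -(2 * Real.pi * u) := by push_cast; ring
    have h2 : -(((1 : ℕ) : ℝ) * u) = -u := by push_cast; ring
    rw [h1, h2]
    ring
  have hm1 : IntegrableOn (fun u => s2e u * (kh ρ (-u)).re) (Set.Ioi 0) := by
    have h := (Integrable.re hl1).mul_const 2
    exact h.congr (Eventually.of_forall heq)
  have hm2 : ∫ u in Set.Ioi (0 : ℝ), s2e u * (kh ρ (-u)).re = 1 / Real.pi := by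
    have h1 : ∫ u in Set.Ioi (0 : ℝ), s2e u * (kh ρ (-u)).re =
        ∫ u in Set.Ioi (0 : ℝ), (((Real.exp (-2 * Real.pi * ((1 : ℕ) : ℝ) * u) : ℝ) : ℂ) *
      kh ρ (-(((1 : ℕ) : ℝ) * u))).re * 2 :=
      integral_congr_ae (Eventually.of_forall fun u => (heq u).symm)
    have h2 := integral_re (μ := volume.restrict (Set.Ioi (0 : ℝ))) hl1
    rw [hl2] at h2
    rw [h1, integral_mul_const]
    have h3 : ∫ u in Set.Ioi (0 : ℝ), (((Real.exp (-2 * Real.pi * ((1 : ℕ) : ℝ) * u) : ℝ) : ℂ) *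
      kh ρ (-(((1 : ℕ) : ℝ) * u))).re = (1 / (2 * (Real.pi : ℂ) * ((1 : ℕ) : ℂ))).re := h2
    rw [h3]
    have h4 : (1 / (2 * (Real.pi : ℂ) * ((1 : ℕ) : ℂ))) = ((1 / (2 * Real.pi) : ℝ) : ℂ) := by
      push_cast
      ring
    rw [h4, Complex.ofReal_re]
    field_simp
  have hfun : s2g ρ = fun u => kk ρ u - 2 * (s2e u * (kh ρ (-u)).re) + s2e u ^ 2 := by
    ext u
    exact s2g_eq ρ u
  rw [hfun]
  have hsub : IntegrableOn (fun u => kk ρ u - 2 * (s2e u * (kh ρ (-u)).re)) (Set.Ioi 0) :=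
    hk1.sub (hm1.const_mul 2)
  refine ⟨hsub.add he1, ?_⟩
  rw [integral_add hsub he1, integral_sub hk1 (hm1.const_mul 2), integral_const_mul, hk2, hm2, he2]
  ring

/-- size of the squared distance -/
theorem s2g_le {T : ℝ} {ρ : ℝ → ℝ} (h4 : 4 ≤ T) (hC : Pool.Agent.LK.KerC T ρ) {u : ℝ}
    (hu : 0 < u) : s2g ρ u ≤ 8000 * T ^ 4 / (1 + u ^ 2) := by
  have hpi := Real.pi_gt_three
  have hT : 0 < T := by linarith
  have b1 := s2_bd hC u
  have b2 := s2_bd hC (-u)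
  have d1 := s2_dec hC u hu.ne'
  have d2 := s2_dec hC (-u) (by linarith)
  rw [abs_neg] at d2
  rw [abs_of_pos hu] at d1 d2
  have he1 : s2e u ≤ 2 := by
    unfold s2e
    have : Real.exp (-(2 * Real.pi * u)) ≤ 1 := by
      rw [Real.exp_le_one_iff]
      have : 0 < 2 * Real.pi * u := by positivity
      linarith
    linarith
  have he0 := (s2e_pos u).le
  have hK : (8 * (1 + T) + 8 * (2 * T + 1)) * T ≤ 28 * T ^ 2 := by nlinarith
  have d1' : ‖kh ρ u‖ * u ≤ 28 * T ^ 2 := by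
    rw [le_div_iff₀ hu] at d1
    linarith
  have d2' : ‖kh ρ (-u)‖ * u ≤ 28 * T ^ 2 := by
    rw [le_div_iff₀ hu] at d2
    linarith
  have he2 : s2e u * u ≤ 2 := by
    unfold s2e
    have h1 : 2 * Real.pi * u + 1 ≤ Real.exp (2 * Real.pi * u) := Real.add_one_le_exp _
    have h2 : u ≤ Real.exp (2 * Real.pi * u) := by nlinarith
    rw [Real.exp_neg]
    have h3 : (Real.exp (2 * Real.pi * u))⁻¹ * u ≤ 1 := by
      rw [inv_mul_le_iff₀ (Real.exp_pos _)]
      linarith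
    linarith
  have hn : ‖kh ρ (-u) - (s2e u : ℂ)‖ ≤ ‖kh ρ (-u)‖ + s2e u := by
    refine (norm_sub_le _ _).trans ?_
    rw [Complex.norm_real, Real.norm_of_nonneg he0]
  have hn0 := norm_nonneg (kh ρ (-u) - (s2e u : ℂ))
  have hA0 := norm_nonneg (kh ρ (-u))
  have hB0 := norm_nonneg (kh ρ u)
  have hg1 : s2g ρ u ≤ 4000 * T ^ 4 := by
    unfold s2g
    have h1 : ‖kh ρ (-u) - (s2e u : ℂ)‖ ≤ 2 * T := by linarith
    have h2 : ‖kh ρ u‖ ≤ 2 * T := by linarith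
    have h3 : ‖kh ρ (-u) - (s2e u : ℂ)‖ ^ 2 ≤ (2 * T) ^ 2 := pow_le_pow_left₀ hn0 h1 2
    have h5 : ‖kh ρ u‖ ^ 2 ≤ (2 * T) ^ 2 := pow_le_pow_left₀ hB0 h2 2
    have h6 : T ^ 2 ≤ T ^ 4 := pow_le_pow_right₀ (by linarith) (by norm_num)
    nlinarith
  have hg2 : s2g ρ u * u ^ 2 ≤ 4000 * T ^ 4 := by
    unfold s2g
    have h1 : ‖kh ρ (-u) - (s2e u : ℂ)‖ * u ≤ 29 * T ^ 2 := by
      have : ‖kh ρ (-u) - (s2e u : ℂ)‖ * u ≤ (‖kh ρ (-u)‖ + s2e u) * u :=
        mul_le_mul_of_nonneg_right hn hu.le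
      nlinarith
    have h3 : (‖kh ρ (-u) - (s2e u : ℂ)‖ * u) ^ 2 ≤ (29 * T ^ 2) ^ 2 :=
      pow_le_pow_left₀ (by positivity) h1 2
    have h5 : (‖kh ρ u‖ * u) ^ 2 ≤ (28 * T ^ 2) ^ 2 := pow_le_pow_left₀ (by positivity) d1' 2
    have e1 : (29 * T ^ 2) ^ 2 = 841 * T ^ 4 := by ring
    have e2 : (28 * T ^ 2) ^ 2 = 784 * T ^ 4 := by ring
    have e3 : (‖kh ρ (-u) - (s2e u : ℂ)‖ ^ 2 + ‖kh ρ u‖ ^ 2) * u ^ 2 =
      (‖kh ρ (-u) - (s2e u : ℂ)‖ * u) ^ 2 + (‖kh ρ u‖ * u) ^ 2 := by ring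
    have e4 : 0 ≤ T ^ 4 := by positivity
    rw [e3]
    rw [e1] at h3
    rw [e2] at h5
    linarith
  rw [le_div_iff₀ (by positivity)]
  linarith

/-- the majorant -/
noncomputable def s2h (u : ℝ) : ℝ := (u ^ (1 / 4 : ℝ) + u ^ (-(1 / 4) : ℝ)) / (1 + u ^ 2)

theorem s2h_int : IntegrableOn s2h (Set.Ioi 0) := by
  have hm : AEStronglyMeasurable s2h (volume.restrict (Set.Ioi 0)) := by
    unfold s2h
    refine Measurable.aestronglyMeasurable ?_
    fun_prop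
  rw [← Set.Ioc_union_Ioi_eq_Ioi (zero_le_one' ℝ)]
  refine IntegrableOn.union ?_ ?_
  · have hi : IntegrableOn (fun u : ℝ => 2 * u ^ (-(1 / 4) : ℝ)) (Set.Ioc 0 1) := by
      have : IntervalIntegrable (fun u : ℝ => u ^ (-(1 / 4) : ℝ)) volume 0 1 :=
        intervalIntegral.intervalIntegrable_rpow' (by norm_num)
      rw [intervalIntegrable_iff_integrableOn_Ioc_of_le zero_le_one] at this
      exact this.const_mul 2
    refine Integrable.mono' hi (hm.mono_measure (Measure.restrict_mono Set.Ioc_subset_Ioi_self le_rfl)) ?_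
    refine (ae_restrict_iff' measurableSet_Ioc).2 (Eventually.of_forall ?_)
    intro u hu
    have hu0 : 0 < u := hu.1
    unfold s2h
    rw [Real.norm_of_nonneg (by positivity)]
    have h1 : u ^ (1 / 4 : ℝ) ≤ u ^ (-(1 / 4) : ℝ) :=
      Real.rpow_le_rpow_of_exponent_ge hu.1 hu.2 (by norm_num)
    have h2 : 0 < u ^ (-(1 / 4) : ℝ) := Real.rpow_pos_of_pos hu0 _
    rw [div_le_iff₀ (by positivity)]
    nlinarith [sq_nonneg u, mul_nonneg h2.le (sq_nonneg u)]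
  · have hi : IntegrableOn (fun u : ℝ => 2 * u ^ (-(7 / 4) : ℝ)) (Set.Ioi 1) :=
      (integrableOn_Ioi_rpow_of_lt (by norm_num) one_pos).const_mul 2
    refine Integrable.mono' hi (hm.mono_measure (Measure.restrict_mono
      (Set.Ioi_subset_Ioi zero_le_one) le_rfl)) ?_
    refine (ae_restrict_iff' measurableSet_Ioi).2 (Eventually.of_forall ?_)
    intro u hu
    have hu1 : (1 : ℝ) < u := hu
    have hu0 : 0 < u := by linarith
    unfold s2h
    rw [Real.norm_of_nonneg (by positivity)]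
    have h1 : u ^ (-(1 / 4) : ℝ) ≤ u ^ (1 / 4 : ℝ) :=
      Real.rpow_le_rpow_of_exponent_le hu1.le (by norm_num)
    have h3 : u ^ (-(7 / 4) : ℝ) * u ^ 2 = u ^ (1 / 4 : ℝ) := by
      rw [← Real.rpow_natCast, ← Real.rpow_add hu0]
      norm_num
    have h4 : 0 < u ^ (-(7 / 4) : ℝ) := Real.rpow_pos_of_pos hu0 _
    rw [div_le_iff₀ (by positivity)]
    nlinarith

theorem s2_log_bd {u Λ : ℝ} (hu : 0 < u) :
    |Real.log u| ≤ Λ + 4 * Real.exp (-(Λ / 4)) * (u ^ (1 / 4 : ℝ) + u ^ (-(1 / 4) : ℝ)) := by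
  have h1 : (|Real.log u| - Λ) / 4 + 1 ≤ Real.exp ((|Real.log u| - Λ) / 4) :=
    Real.add_one_le_exp _
  have h2 : Real.exp ((|Real.log u| - Λ) / 4) = Real.exp (-(Λ / 4)) *
      Real.exp (|Real.log u| / 4) := by
    rw [← Real.exp_add]; congr 1; ring
  have h3 : Real.exp (|Real.log u| / 4) ≤ u ^ (1 / 4 : ℝ) + u ^ (-(1 / 4) : ℝ) := by
    have p1 : 0 < u ^ (1 / 4 : ℝ) := Real.rpow_pos_of_pos hu _
    have p2 : 0 < u ^ (-(1 / 4) : ℝ) := Real.rpow_pos_of_pos hu _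
    rcases abs_cases (Real.log u) with ⟨h, -⟩ | ⟨h, -⟩
    · rw [h]
      have : Real.exp (Real.log u / 4) = u ^ (1 / 4 : ℝ) := by
        rw [Real.rpow_def_of_pos hu]; congr 1; ring
      linarith
    · rw [h]
      have : Real.exp (-Real.log u / 4) = u ^ (-(1 / 4) : ℝ) := by
        rw [Real.rpow_def_of_pos hu]; congr 1; ring
      linarith
  have h4 := mul_le_mul_of_nonneg_left h3 (Real.exp_pos (-(Λ / 4))).le
  rw [h2] at h1
  linarith

theorem s2e_log_int : IntegrableOn (fun u => s2e u ^ 2 * Real.log u ^ 2) (Set.Ioi 0) := by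
  have hpi := Real.pi_pos
  have hm : AEStronglyMeasurable (fun u => s2e u ^ 2 * Real.log u ^ 2)
      (volume.restrict (Set.Ioi 0)) := by
    unfold s2e
    refine Measurable.aestronglyMeasurable ?_
    fun_prop
  have i1 := integrableOn_rpow_mul_exp_neg_mul_rpow (p := 1) (s := 1 / 2) (b := 4 * Real.pi)
    (by norm_num) (by norm_num) (by positivity)
  have i2 := integrableOn_rpow_mul_exp_neg_mul_rpow (p := 1) (s := -(1 / 2)) (b := 4 * Real.pi)
    (by norm_num) (by norm_num) (by positivity)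
  refine Integrable.mono' ((i1.add i2).const_mul (4 * 32)) hm ?_
  refine (ae_restrict_iff' measurableSet_Ioi).2 (Eventually.of_forall ?_)
  intro u hu
  have hu0 : (0 : ℝ) < u := hu
  rw [Real.norm_of_nonneg (by positivity), s2e_sq]
  simp only [Pi.add_apply, Real.rpow_one]
  have h1 := s2_log_bd (Λ := 0) hu0
  simp only [zero_div, neg_zero, Real.exp_zero, mul_one, zero_add] at h1
  have p1 : 0 < u ^ (1 / 4 : ℝ) := Real.rpow_pos_of_pos hu0 _
  have p2 : 0 < u ^ (-(1 / 4) : ℝ) := Real.rpow_pos_of_pos hu0 _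
  have q1 : (u ^ (1 / 4 : ℝ)) ^ 2 = u ^ (1 / 2 : ℝ) := by
    rw [← Real.rpow_natCast, ← Real.rpow_mul hu0.le]; norm_num
  have q2 : (u ^ (-(1 / 4) : ℝ)) ^ 2 = u ^ (-(1 / 2) : ℝ) := by
    rw [← Real.rpow_natCast, ← Real.rpow_mul hu0.le]; norm_num
  have h2 : Real.log u ^ 2 ≤ 32 * (u ^ (1 / 2 : ℝ) + u ^ (-(1 / 2) : ℝ)) := by
    have h3 : Real.log u ^ 2 ≤ (4 * (u ^ (1 / 4 : ℝ) + u ^ (-(1 / 4) : ℝ))) ^ 2 := by
      rw [← sq_abs (Real.log u)]
      exact pow_le_pow_left₀ (abs_nonneg _) h1 2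
    rw [← q1, ← q2]
    nlinarith [sq_nonneg (u ^ (1 / 4 : ℝ) - u ^ (-(1 / 4) : ℝ))]
  have e1 : Real.exp (-(4 * Real.pi) * u) = Real.exp (-(4 * Real.pi * u)) := by
    congr 1; ring
  rw [e1]
  have h5 := mul_le_mul_of_nonneg_left h2 (Real.exp_pos (-(4 * Real.pi * u))).le
  linarith

/-- the logarithmic moment of the kernel -/
theorem s2_kklog : ∃ K : ℝ, 0 ≤ K ∧ ∀ T : ℝ, 4 ≤ T → ∀ ρ : ℝ → ℝ, Pool.Agent.LK.KerC T ρ →
    |(∫ u in Set.Ioi (0 : ℝ), kk ρ u * Real.log u) +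
      (Real.eulerMascheroniConstant + Real.log (4 * Real.pi)) / Real.pi| ≤
      K * T ^ (-(1 / 2) : ℝ) := by
  set H : ℝ := ∫ u in Set.Ioi (0 : ℝ), s2h u with hH
  set E2 : ℝ := ∫ u in Set.Ioi (0 : ℝ), s2e u ^ 2 * Real.log u ^ 2 with hE2
  have hH0 : 0 ≤ H := by
    refine setIntegral_nonneg measurableSet_Ioi fun u hu => ?_
    have hu0 : (0 : ℝ) < u := hu
    unfold s2h
    positivity
  have hE0 : 0 ≤ E2 := by
    refine setIntegral_nonneg measurableSet_Ioi fun u hu => ?_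
    positivity
  refine ⟨1148 + E2 + 32000 * H, by positivity, ?_⟩
  intro T h4 ρ hC
  have hT : 0 < T := by linarith
  have hρ := hC.toKerL
  obtain ⟨hg1, hg2⟩ := s2g_total hρ
  obtain ⟨he1, he2⟩ := s2_exp_log
  have hkl : IntegrableOn (fun u => kk ρ u * Real.log u) (Set.Ioi 0) := by
    refine Integrable.mono' (kk_log_int hρ) ?_ ?_
    · exact ((kk_cont hρ).measurable.mul Real.measurable_log).aestronglyMeasurable
    · refine Eventually.of_forall fun u => ?_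
      rw [norm_mul, Real.norm_of_nonneg (kk_nonneg ρ u), Real.norm_eq_abs]
  have hel : IntegrableOn (fun u => s2e u ^ 2 * Real.log u) (Set.Ioi 0) := by
    simp only [s2e_sq]
    exact he1
  have hev : ∫ u in Set.Ioi (0 : ℝ), s2e u ^ 2 * Real.log u =
      -(Real.eulerMascheroniConstant + Real.log (4 * Real.pi)) / Real.pi := by
    simp only [s2e_sq]
    exact he2
  have hdiff : (∫ u in Set.Ioi (0 : ℝ), kk ρ u * Real.log u) +
      (Real.eulerMascheroniConstant + Real.log (4 * Real.pi)) / Real.pi =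
      ∫ u in Set.Ioi (0 : ℝ), (kk ρ u * Real.log u - s2e u ^ 2 * Real.log u) := by
    rw [integral_sub hkl hel, hev]
    ring
  set Λ : ℝ := 20 * Real.log T with hΛ
  set a : ℝ := T ^ (1 / 2 : ℝ) with ha
  have ha0 : 0 < a := Real.rpow_pos_of_pos hT _
  have hΛ0 : 0 ≤ Λ := by
    have : 0 ≤ Real.log T := Real.log_nonneg (by linarith)
    positivity
  have hexpΛ : Real.exp (-(Λ / 4)) = T ^ (-5 : ℝ) := by
    rw [Real.rpow_def_of_pos hT, hΛ]
    congr 1
    ring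
  have hmaj : IntegrableOn (fun u => (a + Λ) * s2g ρ u + 1 / a * (s2e u ^ 2 * Real.log u ^ 2) +
      32000 * T ^ 4 * T ^ (-5 : ℝ) * s2h u) (Set.Ioi 0) :=
    ((hg1.const_mul _).add (s2e_log_int.const_mul _)).add (s2h_int.const_mul _)
  have hpt : ∀ u ∈ Set.Ioi (0 : ℝ), ‖kk ρ u * Real.log u - s2e u ^ 2 * Real.log u‖ ≤
      (a + Λ) * s2g ρ u + 1 / a * (s2e u ^ 2 * Real.log u ^ 2) +
      32000 * T ^ 4 * T ^ (-5 : ℝ) * s2h u := by
    intro u hu
    have hu0 : (0 : ℝ) < u := hu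
    have hg0 := s2g_nonneg ρ u
    have he0 := (s2e_pos u).le
    have e1 : kk ρ u * Real.log u - s2e u ^ 2 * Real.log u =
        s2g ρ u * Real.log u + 2 * (s2e u * ((kh ρ (-u)).re - s2e u)) * Real.log u := by
      rw [s2g_eq]; ring
    rw [e1]
    refine (norm_add_le _ _).trans ?_
    have hA : ‖s2g ρ u * Real.log u‖ ≤ Λ * s2g ρ u + 32000 * T ^ 4 * T ^ (-5 : ℝ) * s2h u := by
      rw [norm_mul, Real.norm_of_nonneg hg0, Real.norm_eq_abs]
      have h1 := s2_log_bd (Λ := Λ) hu0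
      have h2 := s2g_le h4 hC hu0
      rw [hexpΛ] at h1
      have p1 : 0 < u ^ (1 / 4 : ℝ) := Real.rpow_pos_of_pos hu0 _
      have p2 : 0 < u ^ (-(1 / 4) : ℝ) := Real.rpow_pos_of_pos hu0 _
      have p3 : 0 < T ^ (-5 : ℝ) := Real.rpow_pos_of_pos hT _
      calc s2g ρ u * |Real.log u| ≤ s2g ρ u * (Λ + 4 * T ^ (-5 : ℝ) *
            (u ^ (1 / 4 : ℝ) + u ^ (-(1 / 4) : ℝ))) := mul_le_mul_of_nonneg_left h1 hg0
        _ = Λ * s2g ρ u + s2g ρ u * (4 * T ^ (-5 : ℝ) *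
            (u ^ (1 / 4 : ℝ) + u ^ (-(1 / 4) : ℝ))) := by ring
        _ ≤ Λ * s2g ρ u + 8000 * T ^ 4 / (1 + u ^ 2) * (4 * T ^ (-5 : ℝ) *
            (u ^ (1 / 4 : ℝ) + u ^ (-(1 / 4) : ℝ))) := by
            gcongr
        _ = Λ * s2g ρ u + 32000 * T ^ 4 * T ^ (-5 : ℝ) * s2h u := by
            unfold s2h; ring
    have hB : ‖2 * (s2e u * ((kh ρ (-u)).re - s2e u)) * Real.log u‖ ≤
        a * s2g ρ u + 1 / a * (s2e u ^ 2 * Real.log u ^ 2) := by
      have hre : |(kh ρ (-u)).re - s2e u| ≤ ‖kh ρ (-u) - (s2e u : ℂ)‖ := by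
        have := Complex.abs_re_le_norm (kh ρ (-u) - (s2e u : ℂ))
        rwa [Complex.sub_re, Complex.ofReal_re] at this
      have hgx : ‖kh ρ (-u) - (s2e u : ℂ)‖ ^ 2 ≤ s2g ρ u := by
        unfold s2g
        have : 0 ≤ ‖kh ρ u‖ ^ 2 := by positivity
        linarith
      rw [norm_mul, norm_mul, norm_mul, Real.norm_of_nonneg he0, Real.norm_ofNat,
        Real.norm_eq_abs, Real.norm_eq_abs]
      set x := |(kh ρ (-u)).re - s2e u| with hx
      set y := s2e u * |Real.log u| with hy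
      have hx0 : 0 ≤ x := abs_nonneg _
      have hx2 : x ^ 2 ≤ s2g ρ u := le_trans (pow_le_pow_left₀ hx0 hre 2) hgx
      have hy2 : y ^ 2 = s2e u ^ 2 * Real.log u ^ 2 := by
        rw [hy, mul_pow, sq_abs]
      have hamgm : 2 * (x * y) ≤ a * x ^ 2 + 1 / a * y ^ 2 := by
        have h1 : 0 ≤ (a * x - y) ^ 2 / a := by positivity
        have h2 : (a * x - y) ^ 2 / a = a * x ^ 2 + 1 / a * y ^ 2 - 2 * (x * y) := by
          field_simp
          ring
        linarith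
      calc 2 * (s2e u * x) * |Real.log u| = 2 * (x * y) := by rw [hy]; ring
        _ ≤ a * x ^ 2 + 1 / a * y ^ 2 := hamgm
        _ ≤ a * s2g ρ u + 1 / a * (s2e u ^ 2 * Real.log u ^ 2) := by
            rw [hy2]
            have := mul_le_mul_of_nonneg_left hx2 ha0.le
            linarith
    linarith
  rw [hdiff, ← Real.norm_eq_abs]
  refine (norm_integral_le_of_norm_le hmaj
    ((ae_restrict_iff' measurableSet_Ioi).2 (Eventually.of_forall hpt))).trans ?_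
  have hI1 := integral_add ((hg1.const_mul (a + Λ)).add (s2e_log_int.const_mul (1 / a)))
    (s2h_int.const_mul (32000 * T ^ 4 * T ^ (-5 : ℝ)))
  have hI2 := integral_add (hg1.const_mul (a + Λ)) (s2e_log_int.const_mul (1 / a))
  have hval : ∫ u in Set.Ioi (0 : ℝ), ((a + Λ) * s2g ρ u + 1 / a * (s2e u ^ 2 * Real.log u ^ 2) +
      32000 * T ^ 4 * T ^ (-5 : ℝ) * s2h u) =
      (a + Λ) * (Cr ρ - 1 / Real.pi) + 1 / a * E2 + 32000 * T ^ 4 * T ^ (-5 : ℝ) * H := by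
    rw [hE2, hH, ← hg2, ← integral_const_mul, ← integral_const_mul, ← integral_const_mul, ← hI2]
    exact hI1
  rw [hval]
  have hcr := s2_cr h4 hC
  have hcr' : Cr ρ - 1 / Real.pi ≤ 28 / T := (le_abs_self _).trans hcr
  have haT : a * a = T := by
    rw [ha, ← Real.rpow_add hT]; norm_num
  have hinv : T ^ (-(1 / 2) : ℝ) = 1 / a := by
    rw [Real.rpow_neg hT.le, ← ha, one_div a]
  have hlogT : Real.log T ≤ 2 * a := by
    have := Real.log_le_rpow_div hT.le (show (0 : ℝ) < 1 / 2 by norm_num)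
    rw [← ha] at this
    linarith
  have hΛa : Λ ≤ 40 * a := by rw [hΛ]; linarith
  have hT5 : T ^ 4 * T ^ (-5 : ℝ) = 1 / T := by
    rw [← Real.rpow_natCast, ← Real.rpow_add hT, one_div, ← Real.rpow_neg_one]
    norm_num
  have h1a : 1 ≤ a := Real.one_le_rpow (by linarith) (by norm_num)
  have hTa : 1 / T ≤ 1 / a := by
    rw [← haT]
    apply one_div_le_one_div_of_le ha0
    nlinarith
  have t1 : (a + Λ) * (Cr ρ - 1 / Real.pi) ≤ 1148 * (1 / a) := by
    have h1 : (a + Λ) * (Cr ρ - 1 / Real.pi) ≤ (41 * a) * (28 / T) := by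
      have h2 : 0 ≤ 28 / T := by positivity
      calc (a + Λ) * (Cr ρ - 1 / Real.pi) ≤ (a + Λ) * (28 / T) :=
            mul_le_mul_of_nonneg_left hcr' (by linarith)
        _ ≤ (41 * a) * (28 / T) := mul_le_mul_of_nonneg_right (by linarith) h2
    have h3 : (41 * a) * (28 / T) = 1148 * (1 / a) := by
      rw [← haT]; field_simp; norm_num
    linarith
  have t3 : 32000 * T ^ 4 * T ^ (-5 : ℝ) * H ≤ 32000 * H * (1 / a) := by
    have h1 : 32000 * T ^ 4 * T ^ (-5 : ℝ) * H = 32000 * H * (1 / T) := by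
      rw [← hT5]; ring
    rw [h1]
    exact mul_le_mul_of_nonneg_left hTa (by positivity)
  rw [hinv]
  linarith

/-- **Constants of a kernel close to the Cauchy kernel.** -/
theorem ker_const : ∃ C : ℝ, ∀ T : ℝ, 4 ≤ T → ∀ ρ : ℝ → ℝ, Pool.Agent.LK.KerC T ρ →
    |Real.pi * Cr ρ - 1| ≤ C / T ∧
    |cR ρ + Real.log (4 * Real.pi ^ 2)| ≤ C * T ^ (-(1 / 4) : ℝ) := by
  obtain ⟨K1, hK1, H1⟩ := s2_cl
  obtain ⟨K2, hK2, H2⟩ := s2_kklog
  have hpi := Real.pi_pos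
  set γ := Real.eulerMascheroniConstant with hγ
  set C : ℝ := 28 * Real.pi + Real.pi * K1 + 2 * Real.pi * K2 + 56 * Real.pi * |γ| with hCdef
  have hC28 : 28 * Real.pi ≤ C := by
    have h1 : 0 ≤ Real.pi * K1 := by positivity
    have h2 : 0 ≤ 2 * Real.pi * K2 := by positivity
    have h3 : 0 ≤ 56 * Real.pi * |γ| := by positivity
    linarith
  refine ⟨C, ?_⟩
  intro T h4 ρ hC
  have hT : 0 < T := by linarith
  have hcr := s2_cr h4 hC
  constructor
  · have e : Real.pi * Cr ρ - 1 = Real.pi * (Cr ρ - 1 / Real.pi) := by field_simp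
    rw [e, abs_mul, abs_of_pos hpi]
    calc Real.pi * |Cr ρ - 1 / Real.pi| ≤ Real.pi * (28 / T) :=
          mul_le_mul_of_nonneg_left hcr hpi.le
      _ = 28 * Real.pi / T := by ring
      _ ≤ C / T := by gcongr
  · have h1 := H1 T h4 ρ hC
    have h2 := H2 T h4 ρ hC
    set S : ℝ := ∫ u in Set.Ioi (0 : ℝ), kk ρ u * Real.log u with hS
    have hlog : Real.log (4 * Real.pi ^ 2) = 2 * Real.log 2 + 2 * Real.log Real.pi := by
      rw [Real.log_mul (by norm_num) (by positivity), Real.log_pow,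
        show (4 : ℝ) = 2 ^ 2 by norm_num, Real.log_pow]
      push_cast
      ring
    have hlog2 : Real.log (4 * Real.pi) = 2 * Real.log 2 + Real.log Real.pi := by
      rw [Real.log_mul (by norm_num) (by positivity),
        show (4 : ℝ) = 2 ^ 2 by norm_num, Real.log_pow]
      push_cast
      ring
    have e : cR ρ + Real.log (4 * Real.pi ^ 2) = Real.pi * (Cl ρ - 2 * Real.log 2 / Real.pi) +
        2 * Real.pi * (S + (γ + Real.log (4 * Real.pi)) / Real.pi) +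
        2 * Real.pi * γ * (Cr ρ - 1 / Real.pi) := by
      unfold cR
      rw [← hS, ← hγ, hlog, hlog2]
      field_simp
      ring
    have hT14 : 0 < T ^ (-(1 / 4) : ℝ) := Real.rpow_pos_of_pos hT _
    have hle1 : T ^ (-(1 / 2) : ℝ) ≤ T ^ (-(1 / 4) : ℝ) :=
      Real.rpow_le_rpow_of_exponent_le (by linarith) (by norm_num)
    have hle2 : 1 / T ≤ T ^ (-(1 / 4) : ℝ) := by
      rw [one_div, ← Real.rpow_neg_one]
      exact Real.rpow_le_rpow_of_exponent_le (by linarith) (by norm_num)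
    have b1 : |Real.pi * (Cl ρ - 2 * Real.log 2 / Real.pi)| ≤
        Real.pi * K1 * T ^ (-(1 / 4) : ℝ) := by
      rw [abs_mul, abs_of_pos hpi, mul_assoc]
      refine mul_le_mul_of_nonneg_left (h1.trans ?_) hpi.le
      exact mul_le_mul_of_nonneg_left hle1 hK1
    have b2 : |2 * Real.pi * (S + (γ + Real.log (4 * Real.pi)) / Real.pi)| ≤
        2 * Real.pi * K2 * T ^ (-(1 / 4) : ℝ) := by
      rw [abs_mul, abs_of_pos (by positivity : 0 < 2 * Real.pi), mul_assoc (2 * Real.pi) K2]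
      refine mul_le_mul_of_nonneg_left (h2.trans ?_) (by positivity)
      exact mul_le_mul_of_nonneg_left hle1 hK2
    have b3 : |2 * Real.pi * γ * (Cr ρ - 1 / Real.pi)| ≤
        56 * Real.pi * |γ| * T ^ (-(1 / 4) : ℝ) := by
      rw [abs_mul, abs_mul, abs_of_pos (by positivity : 0 < 2 * Real.pi)]
      calc 2 * Real.pi * |γ| * |Cr ρ - 1 / Real.pi| ≤ 2 * Real.pi * |γ| * (28 * (1 / T)) := by
            refine mul_le_mul_of_nonneg_left ?_ (by positivity)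
            calc |Cr ρ - 1 / Real.pi| ≤ 28 / T := hcr
              _ = 28 * (1 / T) := by ring
        _ ≤ 2 * Real.pi * |γ| * (28 * T ^ (-(1 / 4) : ℝ)) := by gcongr
        _ = _ := by ring
    rw [e]
    have b0 := abs_add_three (Real.pi * (Cl ρ - 2 * Real.log 2 / Real.pi))
      (2 * Real.pi * (S + (γ + Real.log (4 * Real.pi)) / Real.pi))
      (2 * Real.pi * γ * (Cr ρ - 1 / Real.pi))
    have hfin : Real.pi * K1 * T ^ (-(1 / 4) : ℝ) + 2 * Real.pi * K2 * T ^ (-(1 / 4) : ℝ) +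
        56 * Real.pi * |γ| * T ^ (-(1 / 4) : ℝ) ≤ C * T ^ (-(1 / 4) : ℝ) := by
      rw [← add_mul, ← add_mul]
      refine mul_le_mul_of_nonneg_right ?_ hT14.le
      rw [hCdef]
      linarith
    linarith

end Pool.Agent.LSP
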